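import Pool.Agent.H36.SF.Main

/-!
All invariant Einstein metrics on `V_3 ℝ^4 = SO(4)`, that is all left-invariant Einstein metrics on
`SO(4)` (and on its double cover `S³ × S³`): up to scaling and `Ad(O(4))` there are three.
-/

namespace Pool.Agent.Results.MP_7ff484_gt.FourThree

open Pool.H36.ST Pool.H36.SF

theorem result (g : Compl 3 1 → Compl 3 1 → ℝ) :
    (IsInvMetric g ∧ IsEin g) ↔
      ∃ (x : ℝ) (h : Matrix (Idx 3 1) (Idx 3 1) ℝ), 0 < x ∧ h * h.transpose = 1 ∧
        (IsPull x h (jensenValue 1) g ∨ IsPull x h (jensenValue (1 / 3)) g ∨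
          IsPull x h third g) :=
  main_thm g

end Pool.Agent.Results.MP_7ff484_gt.FourThree
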