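import Pool.Agent.H36.ST.Bridge

/-!
All invariant Einstein metrics on the Stiefel manifolds `V_3 ℝ^n = SO(n)/SO(n-3)`, `n = m + 3 ≥ 6`:
up to scaling there are exactly two, the metrics of Jensen.
-/

namespace Pool.Agent.Results.MP_7ff484_gt.ThreeFrames

open Pool.H36.ST

theorem result (m : ℕ) (hm : 3 ≤ m) :
    ∃ y₁ y₂ : ℝ, 0 < y₁ ∧ y₁ < y₂ ∧
      (∀ y : ℝ, ((m : ℝ) + 2) * y ^ 2 - 2 * ((m : ℝ) + 1) * y + 1 = 0 ↔ y = y₁ ∨ y = y₂) ∧
      ∀ g : Compl 3 m → Compl 3 m → ℝ, (IsInvMetric g ∧ IsEin g) ↔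
        ∃ x : ℝ, 0 < x ∧ (IsJensen x y₁ g ∨ IsJensen x y₂ g) := by
  have hm' : (3 : ℝ) ≤ m := by exact_mod_cast hm
  have hm2 : (0 : ℝ) < (m : ℝ) + 2 := by linarith
  have hdisc : (0 : ℝ) < ((m : ℝ) + 1) ^ 2 - ((m : ℝ) + 2) := by nlinarith
  set r := Real.sqrt (((m : ℝ) + 1) ^ 2 - ((m : ℝ) + 2)) with hr
  have hr0 : 0 < r := Real.sqrt_pos.mpr hdisc
  have hr2 : r ^ 2 = ((m : ℝ) + 1) ^ 2 - ((m : ℝ) + 2) := Real.sq_sqrt hdisc.le
  have hrm : r < (m : ℝ) + 1 := by nlinarith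
  have hroots : ∀ y : ℝ, ((m : ℝ) + 2) * y ^ 2 - 2 * ((m : ℝ) + 1) * y + 1 = 0 ↔
      y = (((m : ℝ) + 1) - r) / ((m : ℝ) + 2) ∨ y = (((m : ℝ) + 1) + r) / ((m : ℝ) + 2) := by
    intro y
    constructor
    · intro h
      have e : (((m : ℝ) + 2) * y - (((m : ℝ) + 1) - r)) *
          (((m : ℝ) + 2) * y - (((m : ℝ) + 1) + r)) = 0 := by
        linear_combination ((m : ℝ) + 2) * h - hr2
      rcases mul_eq_zero.mp e with h0 | h0
      · left
        rw [eq_div_iff hm2.ne']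
        linarith
      · right
        rw [eq_div_iff hm2.ne']
        linarith
    · intro h
      have e : (((m : ℝ) + 2) * y - (((m : ℝ) + 1) - r)) *
          (((m : ℝ) + 2) * y - (((m : ℝ) + 1) + r)) = 0 := by
        rcases h with h0 | h0
        · rw [eq_div_iff hm2.ne'] at h0
          have : ((m : ℝ) + 2) * y - (((m : ℝ) + 1) - r) = 0 := by linarith
          rw [this, zero_mul]
        · rw [eq_div_iff hm2.ne'] at h0
          have : ((m : ℝ) + 2) * y - (((m : ℝ) + 1) + r) = 0 := by linarith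
          rw [this, mul_zero]
      refine mul_left_cancel₀ hm2.ne' ?_
      linear_combination e + hr2
  have hy1 : 0 < (((m : ℝ) + 1) - r) / ((m : ℝ) + 2) := div_pos (by linarith) hm2
  have hlt : (((m : ℝ) + 1) - r) / ((m : ℝ) + 2) < (((m : ℝ) + 1) + r) / ((m : ℝ) + 2) :=
    div_lt_div_of_pos_right (by linarith) hm2
  refine ⟨(((m : ℝ) + 1) - r) / ((m : ℝ) + 2), (((m : ℝ) + 1) + r) / ((m : ℝ) + 2), hy1, hlt,
    hroots, ?_⟩
  intro g
  constructor
  · intro h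
    obtain ⟨x, y, hx, -, hq, hj⟩ := (classification hm g).mp h
    refine ⟨x, hx, ?_⟩
    rcases (hroots y).mp hq with h | h
    · left
      rw [← h]
      exact hj
    · right
      rw [← h]
      exact hj
  · rintro ⟨x, hx, h | h⟩
    · exact (classification hm g).mpr ⟨x, _, hx, hy1, (hroots _).mpr (Or.inl rfl), h⟩
    · exact (classification hm g).mpr ⟨x, _, hx, hy1.trans hlt, (hroots _).mpr (Or.inr rfl), h⟩

end Pool.Agent.Results.MP_7ff484_gt.ThreeFrames
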